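import Pool.Agent.W792.GK.Stm

/-! GK-DIL: dilated symbols: symmetry and kernel. -/

set_option autoImplicit false

namespace Pool.Agent.W12.GK.Dil

open Pool.Agent.W792.GK UnitAddTorus

theorem sym {d r : ℕ} (N : Fin r → ℤ) (a : C(UnitAddTorus (Fin d × Fin r), ℝ)) (ha : IsSym a) :
    IsSym (dil N a) := by
  constructor
  · intro σ k
    have := ha.1 (Equiv.prodCongr σ (Equiv.refl (Fin r))) (fun i => N i.2 • k i.1)
    exact this
  · intro i k
    set g : UnitAddTorus (Fin d × Fin r) := fun j => N j.2 • k j.1 with hg
    have h : ∀ S : Finset (Fin r),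
        a (fun j => if j.1 = i ∧ j.2 ∈ S then -(g j) else g j) = a g := by
      intro S
      induction S using Finset.induction_on with
      | empty => simp
      | insert l S hl ih =>
        rw [← ih]
        rw [← ha.2 (i, l) (fun j => if j.1 = i ∧ j.2 ∈ S then -(g j) else g j)]
        congr 1
        funext j
        by_cases hj : j = (i, l)
        · subst hj
          simp [hl]
        · rw [Function.update_of_ne hj]
          by_cases h1 : j.1 = i
          · have h2 : j.2 ≠ l := fun h2 => hj (Prod.ext h1 h2)
            simp [h1, h2]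
          · simp [h1]
    have h1 := h Finset.univ
    rw [show dil N a k = a g from rfl, ← h1]
    rw [show dil N a (Function.update k i (-(k i))) =
      a (fun j => N j.2 • Function.update k i (-(k i)) j.1) from rfl]
    congr 1
    funext j
    by_cases h2 : j.1 = i
    · simp only [h2, Finset.mem_univ, and_self, if_true, Function.update_self, hg, smul_neg]
    · simp only [h2, false_and, if_false, hg, ne_eq, not_false_eq_true, Function.update_of_ne]

theorem fourier_sum {r : ℕ} (f : Fin r → ℤ) (x : AddCircle (1 : ℝ)) (S : Finset (Fin r)) :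
    fourier (∑ l ∈ S, f l) x = ∏ l ∈ S, fourier (f l) x := by
  induction S using Finset.induction_on with
  | empty => simp
  | insert l S hl ih => rw [Finset.sum_insert hl, Finset.prod_insert hl, fourier_add, ih]

theorem fourier_mul' (N j : ℤ) (x : AddCircle (1 : ℝ)) : fourier (N * j) x = fourier j (N • x) := by
  rw [fourier_apply, fourier_apply, smul_smul, mul_comm]

theorem mF {d r : ℕ} (N : Fin r → ℤ) (j : Fin d × Fin r → ℤ) (k : UnitAddTorus (Fin d)) :
    mFourier (phiN N (0, j)) k = mFourier j (fun i => N i.2 • k i.1) := by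
  simp only [mFourier, ContinuousMap.coe_mk]
  rw [Fintype.prod_prod_type]
  apply Finset.prod_congr rfl
  intro i _
  have e : phiN N (0, j) i = ∑ l, N l * j (i, l) := by
    change (0 : Fin d → ℤ) i + ∑ l, N l * j (i, l) = _
    simp
  rw [e, fourier_sum]
  apply Finset.prod_congr rfl
  intro l _
  rw [fourier_mul']

theorem mF0 {d r : ℕ} (N : Fin r → ℤ) (n : Fin d → ℤ) :
    phiN N (n, (0 : Fin d × Fin r → ℤ)) = n := by
  funext i
  change n i + ∑ l, N l * (0 : Fin d × Fin r → ℤ) (i, l) = n i
  simp

theorem trig_apply {ι : Type} [Fintype ι] (h : (ι → ℤ) →₀ ℂ) (k : UnitAddTorus ι) :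
    trig h k = h.sum fun n c => c * mFourier n k := by
  unfold trig Finsupp.sum
  rw [ContinuousMap.sum_apply]
  rfl

theorem main : Pool.Agent.W792.GK.S_DIL := by
  intro d r N
  refine ⟨fun a ha => sym N a ha, ?_⟩
  intro h₁ h₂ K a hK ha k
  rw [trig_apply, Finsupp.sum_mapDomain_index (by simp) (by intro a b c; ring)]
  unfold prodKer
  rw [Finsupp.sum_add_index' (by simp) (by intro a b c; ring)]
  rw [Finsupp.sum_mapDomain_index (by simp) (by intro a b c; ring),
    Finsupp.sum_mapDomain_index (by simp) (by intro a b c; ring)]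
  rw [ContinuousMap.add_apply, Complex.ofReal_add, hK]
  rw [show dil N a k = a (fun i => N i.2 • k i.1) from rfl, ha, trig_apply, trig_apply]
  congr 1
  · apply Finsupp.sum_congr
    intro n _
    rw [mF0]
  · apply Finsupp.sum_congr
    intro n _
    rw [mF]

end Pool.Agent.W12.GK.Dil
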