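import Pool.Agent.W792.GK.Stm

/-! GK-MFIN: moments of the finite model. -/

set_option autoImplicit false

namespace Pool.Agent.W12.GK.Mfin

open Pool.Agent.W792.GK

theorem stp_prod {Q J : Type} [AddCommGroup Q] [Fintype Q] [AddCommGroup J] [Fintype J]
    (h₁ : Q →₀ ℂ) (h₂ : J →₀ ℂ) (v : Q × J → ℝ) (u : Q × J → ℂ) (x : Q × J) :
    stp (prodKer h₁ h₂) v u x = (∑ a : Q, h₁ a * u (x.1 - a, x.2)) +
      (∑ b : J, h₂ b * u (x.1, x.2 - b)) + (v x : ℂ) * u x := by
  obtain ⟨x1, x2⟩ := x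
  unfold stp prodKer
  rw [Finsupp.sum_add_index' (by simp) (by intro a b c; ring)]
  rw [Finsupp.sum_mapDomain_index (by simp) (by intro a b c; ring),
    Finsupp.sum_mapDomain_index (by simp) (by intro a b c; ring)]
  rw [Finsupp.sum_fintype _ _ (by simp), Finsupp.sum_fintype _ _ (by simp)]
  simp

theorem ham_mulVec {Q J : Type} [AddCommGroup Q] [Fintype Q] [DecidableEq Q] [AddCommGroup J]
    [Fintype J] [DecidableEq J] (h₁ : Q →₀ ℂ) (h₂ : J →₀ ℂ) (v : Q × J → ℝ) (u : Q × J → ℂ) :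
    (ham (fun x => h₁ x) (fun i j => h₂ (i - j)) v).mulVec u = stp (prodKer h₁ h₂) v u := by
  funext x
  rw [stp_prod, Matrix.mulVec, dotProduct]
  have e : ∀ q : Q × J, ham (fun x => h₁ x) (fun i j => h₂ (i - j)) v x q * u q =
      (if x.2 = q.2 then h₁ (x.1 - q.1) * u q else 0) + (if x.1 = q.1 then h₂ (x.2 - q.2) * u q
        else 0) + (if x = q then (v x : ℂ) * u q else 0) := by
    intro q
    unfold ham
    split_ifs <;> ring
  simp only [e]
  rw [Finset.sum_add_distrib, Finset.sum_add_distrib]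
  congr 1
  · congr 1
    · rw [Fintype.sum_prod_type]
      simp only [Finset.sum_ite_eq, Finset.mem_univ, if_true]
      rw [← (Equiv.subLeft x.1).sum_comp]
      simp
    · rw [Fintype.sum_prod_type_right]
      simp only [Finset.sum_ite_eq, Finset.mem_univ, if_true]
      rw [← (Equiv.subLeft x.2).sum_comp]
      simp
  · simp

theorem main : Pool.Agent.W792.GK.S_MFIN := by
  intro Q J _ _ _ _ _ _ h₁ h₂ v n
  classical
  rw [mom]
  have h : ∀ u : Q × J → ℂ, ((ham (fun x => h₁ x) (fun i j => h₂ (i - j)) v) ^ n).mulVec u =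
      (stp (prodKer h₁ h₂) v)^[n] u := by
    intro u
    induction n with
    | zero => simp
    | succ n ih =>
      rw [pow_succ', ← Matrix.mulVec_mulVec, ih, ham_mulVec, Function.iterate_succ_apply']
  rw [← h]
  rw [Matrix.mulVec, dotProduct]
  have e0 : ((0 : Q), (0 : J)) = (0 : Q × J) := rfl
  rw [e0]
  simp

end Pool.Agent.W12.GK.Mfin
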